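import Pool.Agent.J4.H63.LQ.Fin

/-!
# The Lang–Trotter formula for all curves with complex multiplication by an order of `ℚ(i)` and almost all traces

For every elliptic curve `E : y² = x³ + A x + B` over `ℚ` with complex multiplication by an order of `ℚ(i)`, that is with
`j`-invariant `1728` or `287496`, and almost all traces `r`, `|r| ≤ R`, the number of the primes `p ≤ x` with `a_p = r` is
given by the formula of Lang and Trotter, with an explicit constant `c_{E, r}`, uniformly for
`R ^ (2 + ε) ≤ x ≤ R ^ (3 - ε)`.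

Proof: `E` is `y² = x³ - D x`, or isogenous to such a curve with a square `D`. By the theory of quartic Jacobi sums
`a_p = 2 a ≠ 0` if and only if `p = a² + m²` and `z (D / z)_4` is primary, `z = a + m i`; by the quartic law of reciprocity
this is a condition for `z` modulo `8 D`. For almost all `a` the primes `a² + m²`, `m ≤ M`, in a class modulo `8 D` are given
by the expected formula, for `|a|` as small as `M ^ (2 / 3 + ε)` (the theorem of Fouvry and Iwaniec in classes and for thin
sets of `a`; `Pool.Agent.N782.GN.c_mainx`, starting file).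
-/

set_option autoImplicit false

namespace Pool.Agent.Results.MP_d74fca_nt.GaussianCMCurves

open Finset Filter Topology

/-- The number of the solutions `(x, y)` of `y² = x³ + A x + B` modulo `p`, which is `|E(𝔽_p)| - 1`. -/
def points (A B : ℤ) (p : ℕ) : ℕ :=
  ((range p ×ˢ range p).filter (fun xy : ℕ × ℕ => (p : ℤ) ∣ (xy.2 : ℤ) ^ 2 - ((xy.1 : ℤ) ^ 3 + A * (xy.1 : ℤ) + B))).card

/-- The trace `a_p(E) = p + 1 - |E(𝔽_p)|`. -/
def trace (A B : ℤ) (p : ℕ) : ℤ := (p : ℤ) - points A B p

/-- `π_{E, r}(x)`: the number of the primes `p ≤ x` which do not divide `2 (4 A³ + 27 B²)` and have `a_p(E) = r`. -/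
noncomputable def count (A B r : ℤ) (x : ℝ) : ℕ :=
  ((Icc 1 ⌊x⌋₊).filter (fun p : ℕ => p.Prime ∧ ¬ (p : ℤ) ∣ 2 * (4 * A ^ 3 + 27 * B ^ 2) ∧ trace A B p = r)).card

/-- `y² = x³ + A x + B` is an elliptic curve with complex multiplication by an order of `ℚ(i)`: its `j`-invariant is `1728`
or `287496`. -/
def GaussianCM (A B : ℤ) : Prop :=
  4 * A ^ 3 + 27 * B ^ 2 ≠ 0 ∧ (1728 * (4 * (A : ℚ) ^ 3) / (4 * (A : ℚ) ^ 3 + 27 * (B : ℚ) ^ 2) = 1728 ∨
    1728 * (4 * (A : ℚ) ^ 3) / (4 * (A : ℚ) ^ 3 + 27 * (B : ℚ) ^ 2) = 287496)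

/-- The number `D = D_E` for which `E` is equal or isogenous to the curve `y² = x³ - D x`: it is `-A` if `B = 0`; if the
`j`-invariant is `287496`, then `A = - 11 k²` and `B = 14 k³` for an integer `k`, and `D = k²`. -/
def twist (A B : ℤ) : ℤ := if B = 0 then -A else -A / 11

open Classical in
/-- The quartic residue symbol `(a / π)_4` for an odd Gaussian prime `π`: the number in `{0, 1, i, -1, -i}` congruent to
`a ^ ((N π - 1) / 4)` modulo `π` (note that the norm of `π` is `1` modulo `4`). -/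
noncomputable def quarticPrime (π a : GaussianInt) : GaussianInt :=
  if π ∣ a then 0 else if π ∣ a ^ (π.norm.natAbs / 4) - 1 then 1 else if π ∣ a ^ (π.norm.natAbs / 4) - ⟨0, 1⟩ then ⟨0, 1⟩
  else if π ∣ a ^ (π.norm.natAbs / 4) + 1 then -1 else -⟨0, 1⟩

/-- The quartic residue symbol `(a / z)_4` for a Gaussian integer `z` of odd norm: the product over the prime factors of `z`. -/
noncomputable def quartic (z a : GaussianInt) : GaussianInt :=
  ((UniqueFactorizationMonoid.factors z).map (fun π => quarticPrime π a)).prod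

/-- A Gaussian integer is primary if it is `1` modulo `2 + 2 i`. -/
def Primary (z : GaussianInt) : Prop := (⟨2, 2⟩ : GaussianInt) ∣ z - 1

open Classical in
/-- The number of the classes `m` modulo `8 D` for which `z (D / z)_4` is primary, where `z = r / 2 + m i`, if `r` is even;
otherwise `0`. -/
noncomputable def classes (D r : ℤ) : ℕ :=
  ((range (8 * D.natAbs)).filter (fun m : ℕ => r % 2 = 0 ∧
    Primary ((⟨r / 2, m⟩ : GaussianInt) * quartic ⟨r / 2, m⟩ (D : GaussianInt)))).card

/-- The partial products over the primes `3 ≤ p ≤ z` which do not divide `D r`. -/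
noncomputable def product (D r : ℤ) (z : ℕ) : ℝ :=
  ∏ p ∈ (Icc 3 z).filter (fun p : ℕ => p.Prime ∧ ¬ (p : ℤ) ∣ D * r),
    (1 - ((ZMod.χ₄ (p : ZMod 4) : ℤ) : ℝ) / ((p : ℝ) - 1))

/-- `c = c_{D, r}`: the partial products, times `classes D r / φ(8 D)`, converge to `c`. -/
def IsConstant (D r : ℤ) (c : ℝ) : Prop :=
  Tendsto (fun z => (classes D r : ℝ) / (Nat.totient (8 * D.natAbs) : ℝ) * product D r z) atTop (𝓝 c)

/-- The conclusion for the curve and the trace `r`: there is a number `c ≥ 0`, the constant of `D` and `r` (`D` the number of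
the curve), which is positive if and only if `classes D r` is positive, and
`|π_{E, r}(x) - c ∫_2^√x dt / (2 log t)| ≤ √x / (log x) ^ K` for all real `x` from `R ^ (2 + ε)` to `R ^ (3 - ε)`. -/
def Good (A B : ℤ) (ε : ℝ) (K : ℕ) (R : ℝ) (r : ℤ) : Prop :=
  ∃ c : ℝ, 0 ≤ c ∧ (0 < c ↔ 0 < classes (twist A B) r) ∧ IsConstant (twist A B) r c ∧
    ∀ x : ℝ, R ^ (2 + ε) ≤ x → x ≤ R ^ (3 - ε) →
      |(count A B r x : ℝ) - c * ∫ t in (2 : ℝ)..(Real.sqrt x), 1 / (2 * Real.log t)| ≤ Real.sqrt x / Real.log x ^ K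

open Classical in
/-- The number of the integers `r ≠ 0` with `|r| ≤ R` for which the conclusion fails. -/
noncomputable def exceptions (A B : ℤ) (ε : ℝ) (K : ℕ) (R : ℝ) : ℕ :=
  ((Icc ⌈-R⌉ ⌊R⌋).filter (fun r : ℤ => r ≠ 0 ∧ ¬ Good A B ε K R r)).card

open Pool.Agent.N782.GN Pool.Agent.J4.H63.LQ

/-! ### the constant -/

theorem primary_iff (z : GaussianInt) : Primary z ↔ Pool.Agent.J4.H63.LQ.Pr z := by
  unfold Primary Pool.Agent.J4.H63.LQ.Pr
  constructor
  · rintro ⟨u, hu⟩
    have h1 := congrArg Zsqrtd.re hu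
    have h2 := congrArg Zsqrtd.im hu
    rw [Zsqrtd.re_sub, Zsqrtd.re_mul, Zsqrtd.re_one] at h1
    rw [Zsqrtd.im_sub, Zsqrtd.im_mul, Zsqrtd.im_one] at h2
    simp only at h1 h2
    omega
  · rintro ⟨h1, h2⟩
    refine ⟨⟨(z.re - 1 + z.im) / 4, (z.im - (z.re - 1)) / 4⟩, ?_⟩
    apply Zsqrtd.ext
    · rw [Zsqrtd.re_sub, Zsqrtd.re_mul, Zsqrtd.re_one]
      simp only
      omega
    · rw [Zsqrtd.im_sub, Zsqrtd.im_mul, Zsqrtd.im_one]
      simp only
      omega

theorem quartic_eq (z a : GaussianInt) : quartic z a = Pool.Agent.R441.Q4.Q z a := rfl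

theorem classes_eq (D : ℤ) (r : ℤ) (hr : r % 2 = 0) : classes D r = (cl (8 * D.natAbs) (PD D) (r / 2)).card := by
  classical
  unfold classes cl
  apply congrArg Finset.card
  ext m
  simp only [mem_filter, primary_iff, quartic_eq]
  unfold PD
  tauto

theorem classes_zero (D : ℤ) (r : ℤ) (hr : r % 2 ≠ 0) : classes D r = 0 := by
  classical
  unfold classes
  rw [card_eq_zero, filter_eq_empty_iff]
  rintro m - ⟨h, -⟩
  exact hr h

/-- the factor at an odd prime is positive -/
theorem factor_pos {p : ℕ} (hp : p.Prime) (h2 : p ≠ 2) : 0 < 1 - ((ZMod.χ₄ (p : ZMod 4) : ℤ) : ℝ) / ((p : ℝ) - 1) := by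
  have h3 : 3 ≤ p := by
    have := hp.two_le
    omega
  have h3' : (3 : ℝ) ≤ p := by exact_mod_cast h3
  have h4 : ((ZMod.χ₄ (p : ZMod 4) : ℤ) : ℝ) ≤ 1 := by
    have : (ZMod.χ₄ (p : ZMod 4) : ℤ) ≤ 1 := by
      rw [ZMod.χ₄_nat_eq_if_mod_four]
      split_ifs <;> norm_num
    exact_mod_cast this
  rw [sub_pos, div_lt_one (by linarith)]
  linarith

/-- the constant -/
theorem constant (D : ℤ) (hD : D ≠ 0) (r : ℤ) (hr0 : r ≠ 0) :
    0 ≤ cst (8 * D.natAbs) (PD D) r ∧ (0 < cst (8 * D.natAbs) (PD D) r ↔ 0 < classes D r) ∧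
      IsConstant D r (cst (8 * D.natAbs) (PD D) r) := by
  have hDn : 0 < D.natAbs := Int.natAbs_pos.2 hD
  obtain ⟨q, hq⟩ : ∃ q, q = 8 * D.natAbs := ⟨_, rfl⟩
  have hqD : ∀ p : ℕ, p.Prime → p ≠ 2 → (p ∣ q ↔ (p : ℤ) ∣ D) := by
    intro p hp hp2
    rw [hq, hp.dvd_mul, Int.natCast_dvd]
    constructor
    · rintro (h | h)
      · exfalso
        have h5 : p ∣ 2 ^ 3 := by simpa using h
        exact hp2 ((Nat.prime_dvd_prime_iff_eq hp Nat.prime_two).1 (hp.dvd_of_dvd_pow h5))
      · exact h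
    · exact Or.inr
  by_cases hr : r % 2 = 0
  · set l : ℤ := ((r / 2).natAbs : ℤ) with hl
    have hl0 : l ≠ 0 := by omega
    obtain ⟨hlim, hpos⟩ := c_ssl l hl0
    have hσ : (if 0 < r then (1 : ℤ) else -1) * l = r / 2 := by
      split_ifs with h
      · omega
      · omega
    have hcst : cst (8 * D.natAbs) (PD D) r = (classes D r : ℝ) / (q : ℝ) * (gq q l * SS l) := by
      unfold cst sD
      rw [if_pos hr, ← hl, hσ, classes_eq D r hr, ← hq]
    set F : Finset ℕ := q.primeFactors.filter (fun p : ℕ => p ≠ 2 ∧ ¬ (p : ℤ) ∣ l) with hF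
    set f : ℕ → ℝ := fun p => 1 - ((ZMod.χ₄ (p : ZMod 4) : ℤ) : ℝ) / ((p : ℝ) - 1) with hf
    have hFpos : 0 < ∏ p ∈ F, f p := by
      apply prod_pos
      intro p hp
      rw [hF, mem_filter] at hp
      exact factor_pos (Nat.prime_of_mem_primeFactors hp.1) hp.2.1
    have hq0 : 0 < q := by omega
    have hqr : (0 : ℝ) < (q : ℝ) := by exact_mod_cast hq0
    have hφ : (0 : ℝ) < (Nat.totient q : ℝ) := by
      have : 0 < Nat.totient q := Nat.totient_pos.2 hq0
      exact_mod_cast this
    have hgq : gq q l = (q : ℝ) / (Nat.totient q : ℝ) / ∏ p ∈ F, f p := rfl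
    have hcst2 : cst (8 * D.natAbs) (PD D) r = (classes D r : ℝ) / (Nat.totient q : ℝ) * (SS l / ∏ p ∈ F, f p) := by
      rw [hcst, hgq]
      field_simp
    have hK : 0 < SS l / ∏ p ∈ F, f p := div_pos hpos hFpos
    refine ⟨?_, ?_, ?_⟩
    · rw [hcst2]
      positivity
    · rw [hcst2]
      constructor
      · intro h
        by_contra hc
        have h0 : classes D r = 0 := by omega
        rw [h0] at h
        simp at h
      · intro h
        have h' : (0 : ℝ) < (classes D r : ℝ) := by exact_mod_cast h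
        positivity
    · unfold IsConstant
      rw [hcst2, ← hq]
      apply Tendsto.const_mul
      have hev : (fun z => pp l z / ∏ p ∈ F, f p) =ᶠ[atTop] product D r := by
        filter_upwards [eventually_ge_atTop q] with z hz
        rw [div_eq_iff hFpos.ne']
        unfold pp product
        rw [← prod_union]
        · refine prod_congr ?_ (fun _ _ => rfl)
          ext p
          simp only [hF, mem_union, mem_filter, mem_Icc, Nat.mem_primeFactors]
          have key : p.Prime → p ≠ 2 → ((p : ℤ) ∣ D * r ↔ (p : ℤ) ∣ D ∨ (p : ℤ) ∣ l) := by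
            intro hp hp2
            have hpz : Prime (p : ℤ) := Nat.prime_iff_prime_int.1 hp
            rw [hpz.dvd_mul]
            have e1 : r = 2 * (r / 2) := by omega
            have e2 : (p : ℤ) ∣ r ↔ (p : ℤ) ∣ l := by
              rw [hl]
              have e3 : (p : ℤ) ∣ ((r / 2).natAbs : ℤ) ↔ (p : ℤ) ∣ r / 2 := by
                rw [Int.dvd_natAbs]
              rw [e3]
              constructor
              · intro h
                rw [e1] at h
                rcases hpz.dvd_or_dvd h with h | h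
                · exfalso
                  have h5 : p ∣ 2 := by exact_mod_cast h
                  exact hp2 ((Nat.prime_dvd_prime_iff_eq hp Nat.prime_two).1 h5)
                · exact h
              · intro h
                rw [e1]
                exact Dvd.dvd.mul_left h 2
            rw [e2]
          constructor
          · rintro ⟨⟨h3, hz3⟩, hp, hl3⟩
            have hp2 : p ≠ 2 := by omega
            by_cases hd : (p : ℤ) ∣ D
            · right
              exact ⟨⟨hp, (hqD p hp hp2).2 hd, by omega⟩, hp2, hl3⟩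
            · left
              refine ⟨⟨h3, hz3⟩, hp, ?_⟩
              rw [key hp hp2]
              tauto
          · rintro (⟨⟨h3, hz3⟩, hp, hd⟩ | ⟨⟨hp, hd, -⟩, hp2, hl3⟩)
            · have hp2 : p ≠ 2 := by omega
              rw [key hp hp2] at hd
              exact ⟨⟨h3, hz3⟩, hp, fun h => hd (Or.inr h)⟩
            · have h5 := hp.two_le
              have h6 : p ≤ q := Nat.le_of_dvd hq0 hd
              exact ⟨⟨by omega, by omega⟩, hp, hl3⟩
        · rw [disjoint_left]
          intro p hp1 hp2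
          simp only [hF, mem_filter, mem_Icc, Nat.mem_primeFactors] at hp1 hp2
          obtain ⟨-, hp, hd⟩ := hp1
          obtain ⟨⟨-, hd4, -⟩, hp3, -⟩ := hp2
          apply hd
          exact Dvd.dvd.mul_right ((hqD p hp hp3).1 hd4) r
      exact Tendsto.congr' hev (hlim.div_const _)
  · have h0 := classes_zero D r hr
    have h1 : cst (8 * D.natAbs) (PD D) r = 0 := by
      unfold cst
      rw [if_neg hr]
    refine ⟨h1.ge, ?_, ?_⟩
    · rw [h1, h0]
      simp
    · unfold IsConstant
      rw [h0, h1]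
      simp

/-! ### the curves -/

/-- the two families -/
theorem families {A B : ℤ} (h : GaussianCM A B) :
    (B = 0 ∧ A ≠ 0) ∨ ∃ k : ℤ, k ≠ 0 ∧ A = -11 * k ^ 2 ∧ B = 14 * k ^ 3 := by
  obtain ⟨h0, hj⟩ := h
  have h0' : (4 * (A : ℚ) ^ 3 + 27 * (B : ℚ) ^ 2) ≠ 0 := by exact_mod_cast h0
  rcases hj with hj | hj
  · left
    rw [div_eq_iff h0'] at hj
    have hB : (B : ℚ) ^ 2 = 0 := by linarith
    have hB0 : B = 0 := by
      have := pow_eq_zero_iff (two_ne_zero) |>.1 hB
      exact_mod_cast this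
    refine ⟨hB0, ?_⟩
    rintro rfl
    rw [hB0] at h0
    exact h0 (by ring)
  · right
    rw [div_eq_iff h0'] at hj
    have hj' : 1323 * B ^ 2 * 11 ^ 3 * 0 = 0 := by ring
    -- `-196 A³ = 1331 B²`
    have h1 : 196 * A ^ 3 + 1331 * B ^ 2 = 0 := by
      have h2 : (196 * (A : ℚ) ^ 3 + 1331 * (B : ℚ) ^ 2) = 0 := by linarith
      exact_mod_cast h2
    have hA0 : A ≠ 0 := by
      rintro rfl
      have : B ^ 2 = 0 := by linarith
      have hB0 : B = 0 := pow_eq_zero_iff (two_ne_zero) |>.1 this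
      rw [hB0] at h0
      exact h0 (by ring)
    -- `11 ∣ A`
    have h11 : Prime (11 : ℤ) := by norm_num
    have h7 : Prime (7 : ℤ) := by norm_num
    have h2' : Prime (2 : ℤ) := by norm_num
    have hA11 : (11 : ℤ) ∣ A := by
      apply h11.dvd_of_dvd_pow (n := 3)
      have : (11 : ℤ) ∣ 196 * A ^ 3 := ⟨-(121 * B ^ 2), by linarith⟩
      rcases h11.dvd_or_dvd this with h | h
      · exfalso
        omega
      · exact h
    obtain ⟨a, ha⟩ := hA11
    have h3 : 196 * a ^ 3 + B ^ 2 = 0 := by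
      rw [ha] at h1
      have : 1331 * (196 * a ^ 3 + B ^ 2) = 0 := by linarith
      rcases mul_eq_zero.1 this with h | h
      · omega
      · exact h
    have hB14 : (14 : ℤ) ∣ B := by
      have e2 : (2 : ℤ) ∣ B := by
        apply h2'.dvd_of_dvd_pow (n := 2)
        exact ⟨-(98 * a ^ 3), by linarith⟩
      have e7 : (7 : ℤ) ∣ B := by
        apply h7.dvd_of_dvd_pow (n := 2)
        exact ⟨-(28 * a ^ 3), by linarith⟩
      omega
    obtain ⟨b, hb⟩ := hB14
    have h4 : b ^ 2 = (-a) ^ 3 := by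
      rw [hb] at h3
      linarith
    -- a square which is a cube
    have ha0 : a ≠ 0 := by
      rintro rfl
      exact hA0 (by rw [ha]; ring)
    have hdv : a ∣ b := by
      have : a ^ 2 ∣ b ^ 2 := ⟨-a, by rw [h4]; ring⟩
      exact (Int.pow_dvd_pow_iff two_ne_zero).1 this
    obtain ⟨c, hc⟩ := hdv
    have h5 : c ^ 2 = -a := by
      rw [hc] at h4
      have h6 : a ^ 2 * (c ^ 2 + a) = 0 := by linarith
      rcases mul_eq_zero.1 h6 with h | h
      · exact absurd (pow_eq_zero_iff (two_ne_zero) |>.1 h) ha0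
      · linarith
    refine ⟨-c, ?_, ?_, ?_⟩
    · intro h
      apply ha0
      have : c = 0 := by linarith
      rw [this] at h5
      linarith
    · rw [ha]
      linarith
    · rw [hb, hc]
      have : a = - c ^ 2 := by linarith
      rw [this]
      ring

theorem trace_eq (A B : ℤ) (p : ℕ) : trace A B p = tr A B p := rfl

theorem twist_ne {A B : ℤ} (h : GaussianCM A B) : twist A B ≠ 0 := by
  unfold twist
  rcases families h with ⟨h1, h2⟩ | ⟨k, hk, h1, h2⟩
  · rw [if_pos h1]
    omega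
  · have hB : B ≠ 0 := by
      rw [h2]
      positivity
    rw [if_neg hB, h1]
    have e : -(-11 * k ^ 2) / 11 = k ^ 2 := by omega
    rw [e]
    positivity

theorem count_eq {A B : ℤ} (h : GaussianCM A B) (r : ℤ) (x : ℝ) : count A B r x = piN (twist A B) r x := by
  unfold count piN twist
  rcases families h with ⟨h1, h2⟩ | ⟨k, hk, h1, h2⟩
  · rw [if_pos h1]
    apply congrArg Finset.card
    ext p
    rw [mem_filter, mem_filter, mem_Icc, mem_range, trace_eq]
    have key : p.Prime → ((p : ℤ) ∣ 2 * (4 * A ^ 3 + 27 * B ^ 2) ↔ (p : ℤ) ∣ 2 * -A) := by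
      intro hp
      have hpz := Nat.prime_iff_prime_int.1 hp
      rw [h1]
      constructor
      · intro hd
        have e : (2 * (4 * A ^ 3 + 27 * 0 ^ 2) : ℤ) = (2 * A) ^ 3 := by ring
        rw [e] at hd
        have := hpz.dvd_of_dvd_pow hd
        rw [mul_neg]
        exact this.neg_right
      · intro hd
        have e : (2 * (4 * A ^ 3 + 27 * 0 ^ 2) : ℤ) = (2 * -A) * (-4 * A ^ 2) := by ring
        rw [e]
        exact Dvd.dvd.mul_right hd _
    constructor
    · rintro ⟨⟨g1, g2⟩, g3, g4, g5⟩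
      refine ⟨by omega, g3, fun g => g4 ((key g3).2 g), ?_⟩
      rw [neg_neg, ← h1]
      exact g5
    · rintro ⟨g1, g3, g4, g5⟩
      rw [neg_neg, ← h1] at g5
      exact ⟨⟨g3.pos, by omega⟩, g3, fun g => g4 ((key g3).1 g), g5⟩
  · have hB : B ≠ 0 := by
      rw [h2]
      positivity
    rw [if_neg hB]
    have e : -A / 11 = k ^ 2 := by
      rw [h1]
      omega
    rw [e]
    apply congrArg Finset.card
    ext p
    rw [mem_filter, mem_filter, mem_Icc, mem_range, trace_eq]
    have hΔ : (2 * (4 * A ^ 3 + 27 * B ^ 2) : ℤ) = -(2 * k) ^ 6 := by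
      rw [h1, h2]
      ring
    have key : p.Prime → ((p : ℤ) ∣ 2 * (4 * A ^ 3 + 27 * B ^ 2) ↔ (p : ℤ) ∣ 2 * k ^ 2) := by
      intro hp
      have hpz := Nat.prime_iff_prime_int.1 hp
      rw [hΔ, dvd_neg]
      constructor
      · intro hd
        have h3 := hpz.dvd_of_dvd_pow hd
        rcases hpz.dvd_or_dvd h3 with h4 | h4
        · exact Dvd.dvd.mul_right h4 _
        · exact Dvd.dvd.mul_left (Dvd.dvd.pow h4 two_ne_zero) _
      · intro hd
        refine Dvd.dvd.pow ?_ (by norm_num)
        rcases hpz.dvd_or_dvd hd with h4 | h4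
        · exact Dvd.dvd.mul_right h4 _
        · exact Dvd.dvd.mul_left (hpz.dvd_of_dvd_pow h4) _
    have key2 : p.Prime → ¬ (p : ℤ) ∣ 2 * k ^ 2 → tr A B p = tr (-k ^ 2) 0 p := by
      intro hp hd
      have : Fact p.Prime := ⟨hp⟩
      have hp2 : p ≠ 2 := by
        rintro rfl
        exact hd (dvd_mul_right _ _)
      rw [h1, h2]
      refine tr_eleven k hp2 fun h3 => hd ?_
      exact Dvd.dvd.mul_left (Dvd.dvd.pow h3 two_ne_zero) _
    constructor
    · rintro ⟨⟨g1, g2⟩, g3, g4, g5⟩
      have g6 : ¬ (p : ℤ) ∣ 2 * k ^ 2 := fun g => g4 ((key g3).2 g)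
      refine ⟨by omega, g3, g6, ?_⟩
      rw [← key2 g3 g6]
      exact g5
    · rintro ⟨g1, g3, g4, g5⟩
      rw [← key2 g3 g4] at g5
      exact ⟨⟨g3.pos, by omega⟩, g3, fun g => g4 ((key g3).1 g), g5⟩

/-- For every elliptic curve `E : y² = x³ + A x + B`, with integers `A` and `B`, with complex multiplication by an order of
`ℚ(i)`, all `ε > 0`, `K` and all large `R`, all but at most `R / (log R) ^ K` of the integers `r ≠ 0` with `|r| ≤ R` satisfy
the formula of Lang and Trotter for `E`, for all `x` from `R ^ (2 + ε)` to `R ^ (3 - ε)`. -/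
theorem result (A B : ℤ) (h : GaussianCM A B) (ε : ℝ) (hε : 0 < ε) (K : ℕ) :
    ∃ R₀ : ℝ, ∀ R : ℝ, R₀ ≤ R → (exceptions A B ε K R : ℝ) ≤ R / Real.log R ^ K := by
  classical
  obtain ⟨R₀, hR₀⟩ := lt_quartic (twist_ne h) ε K hε
  refine ⟨R₀, fun R hR => le_trans ?_ (hR₀ R hR)⟩
  unfold exceptions
  rw [Nat.cast_le]
  apply card_le_card
  intro r hr
  rw [mem_filter] at hr ⊢
  refine ⟨hr.1, fun hg => hr.2.2 ?_⟩
  obtain ⟨h1, h2, h3⟩ := constant (twist A B) (twist_ne h) r hr.2.1
  refine ⟨cst (8 * (twist A B).natAbs) (PD (twist A B)) r, h1, h2, h3, fun x hx1 hx2 => ?_⟩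
  rw [count_eq h]
  exact hg x hx1 hx2

end Pool.Agent.Results.MP_d74fca_nt.GaussianCMCurves
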