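import Pool.Agent.J4.H11.MT.One

/-! # Lang–Trotter counts for families of elliptic curves with several parameters from thin sets of different kinds

Let `E_{i, n} : y² = x³ + f_i(n) x + g_i(n)`, `i < m`, where the `f_i`, `g_i` are any polynomials with integer coefficients in `D`
variables, `D` arbitrary. The point `n = (n_1, ..., n_D)` is random; its coordinates are `n_l = c_l + κ_l v_l`, where the `v_l`
are independent random members of thin sets, which can be of DIFFERENT kinds for different `l`: automatic sets in different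
bases; words with exchangeable blocks of digits; palindromes and other words with independent pairs of mirror digits;
rearrangements of given digits; residues with small Fourier coefficients modulo an integer; integral parts of the values of
functions of non-integral order. The sets can have as few as `Z ^ ε` members below `Z` (the definitions are in
`Pool/Agent/J4/H11/MT/Defs.lean`).

For almost all such `n` the number of the primes `p ≤ x` in a set `T j` of primes at which all the `E_{i, n}` have good reduction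
and prescribed traces `r_i` is, for all `j`, `|r_i|` up to a power of `x`, and for all `x` up to a fixed power of the sizes, equal to
the sum `M` over these `p` of the exact proportion of the points `t` modulo `p` (vectors of `D` residues) for which the curves at
`t` have these traces, with an error of the size of the square root of this sum, `M ^ (1 / 2) x ^ δ`. For example (`m = 1`,
`D = 2`): the curves `y² = x³ + n_1 x + n_2` with `n_1` a member of an automatic set and `n_2` a palindrome, or `n_2 = ⌊ν ^ e⌋`; or (`m = 1`) the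
quadratic twists of a curve by the products `n_1 n_2 ⋯ n_D`.

`GoodPrime a n p`: `p` is a prime which does not divide `2 (4 a³ + 27 n²)`; `pointCount a n p`: the number of the solutions of
`y² = x³ + a x + n` modulo `p` (`Pool/Agent/W263/BSD/Defs.lean`). -/

set_option autoImplicit false

namespace Pool.Agent.Results.MP_d74fca_nt.MixedThinParameters

open Finset Filter Pool.Agent.J4.H11.MT
open Pool.Agent.R459.Eq (pri mem_pri)
open Pool.Agent.N794.CG (meanD meanD_eq)
open Pool.Agent.W263.BSD (GoodPrime pointCount)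

/-- `p` is a prime of good reduction of all the curves `y² = x³ + f_i(n) x + g_i(n)`, and their traces of Frobenius
`a_p = p - N_p` are `r_i`. -/
def Traces {D m : ℕ} (f g : Fin m → MvPolynomial (Fin D) ℤ) (r : Fin m → ℤ) (p : ℕ) (n : Fin D → ℤ) : Prop :=
  ∀ i, GoodPrime (MvPolynomial.eval n (f i)) (MvPolynomial.eval n (g i)) p ∧
    (p : ℤ) - pointCount (MvPolynomial.eval n (f i)) (MvPolynomial.eval n (g i)) p = r i

open Classical in
/-- The number of the primes `p ≤ x` in `T` at which all the `y² = x³ + f_i(n) x + g_i(n)` have good reduction and the traces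
`r_i`. -/
noncomputable def count {D m : ℕ} (f g : Fin m → MvPolynomial (Fin D) ℤ) (T : Set ℕ) (r : Fin m → ℤ) (n : Fin D → ℤ) (x : ℕ) : ℕ :=
  ((range (x + 1)).filter (fun p => p.Prime ∧ p ∈ T ∧ Traces f g r p n)).card

open Classical in
/-- The sum over the primes `p ≤ x` in `T` of the proportion of the vectors `t` of `D` residues modulo `p` for which all the
`y² = x³ + f_i(t) x + g_i(t)` have good reduction at `p` and the traces `r_i`. -/
noncomputable def model {D m : ℕ} (f g : Fin m → MvPolynomial (Fin D) ℤ) (T : Set ℕ) (r : Fin m → ℤ) (x : ℕ) : ℝ :=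
  ∑ p ∈ (range (x + 1)).filter (fun p => p.Prime ∧ p ∈ T),
    (((Fintype.piFinset fun _ : Fin D => range p).filter (fun t => Traces f g r p (fun l => (t l : ℤ)))).card : ℝ) / (p : ℝ) ^ D

open Classical in
/-- The probability that the vector `(v_1, ..., v_D)` of independent random integers with the laws `P_1, ..., P_D` has the
property `E`. -/
noncomputable def prob {D : ℕ} (P : Fin D → Law) (E : (Fin D → ℕ) → Prop) : ℝ :=
  ∑ i ∈ Fintype.piFinset (fun l => (P l).Ω), if E (fun l => (P l).v (i l)) then ∏ l, (P l).w (i l) else 0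

section codes

/-- a code of an integer -/
def ec (z : ℤ) : ℕ := 2 * z.natAbs + if z < 0 then 1 else 0

lemma ec_inj {z z' : ℤ} (h : ec z = ec z') : z = z' := by
  unfold ec at h
  split_ifs at h <;> omega

lemma ec_le (z : ℤ) : ec z ≤ 2 * z.natAbs + 1 := by
  unfold ec
  split_ifs <;> omega

/-- a code of a list -/
def encN : List ℕ → ℕ
  | [] => 0
  | a :: l => Nat.pair a (encN l)

lemma encN_inj : ∀ (l l' : List ℕ), l.length = l'.length → encN l = encN l' → l = l' := by
  intro l
  induction l with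
  | nil =>
    intro l' h _
    cases l' with
    | nil => rfl
    | cons a l' => simp at h
  | cons a l ih =>
    intro l' h h'
    cases l' with
    | nil => simp at h
    | cons a' l' =>
      have h1 := Nat.pair_eq_pair.1 h'
      rw [h1.1, ih l' (by simpa using h) h1.2]

lemma encN_le (R : ℕ) : ∀ l : List ℕ, (∀ a ∈ l, a ≤ R) → encN l + 1 ≤ (R + 1) ^ (2 ^ l.length) := by
  intro l
  induction l with
  | nil =>
    intro _
    simp [encN]
  | cons a l ih =>
    intro h
    have h1 := ih fun a' ha' => h a' (List.mem_cons_of_mem _ ha')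
    have h2 := h a List.mem_cons_self
    have h3 := Nat.pair_lt_max_add_one_sq a (encN l)
    have h4 : max a (encN l) + 1 ≤ (R + 1) ^ (2 ^ l.length) := by
      have h5 : R + 1 ≤ (R + 1) ^ (2 ^ l.length) := Nat.le_self_pow (by positivity) _
      rcases le_total a (encN l) with h6 | h6
      · rw [max_eq_right h6]
        exact h1
      · rw [max_eq_left h6]
        omega
    have h7 := Nat.pow_le_pow_left h4 2
    rw [← pow_mul, ← pow_succ] at h7
    show Nat.pair a (encN l) + 1 ≤ _
    rw [List.length_cons]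
    omega

/-- the code of a vector of integers and an index -/
def code {m : ℕ} (j : ℕ) (r : Fin m → ℤ) : ℕ := encN (j :: List.ofFn (fun i => ec (r i)))

lemma code_inj {m : ℕ} {j j' : ℕ} {r r' : Fin m → ℤ} (h : code j r = code j' r') : j = j' ∧ r = r' := by
  unfold code at h
  have h1 := encN_inj _ _ (by simp) h
  rw [List.cons.injEq] at h1
  refine ⟨h1.1, ?_⟩
  have h2 := List.ofFn_injective h1.2
  funext i
  exact ec_inj (congrFun h2 i)

lemma code_le {m : ℕ} {j R : ℕ} {r : Fin m → ℤ} (hj : j ≤ R) (hr : ∀ i, (r i).natAbs ≤ R) :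
    code j r + 1 ≤ (2 * R + 2) ^ (2 ^ (m + 1)) := by
  unfold code
  have h := encN_le (2 * R + 1) (j :: List.ofFn (fun i => ec (r i))) (by
    intro a ha
    rw [List.mem_cons] at ha
    rcases ha with rfl | ha
    · omega
    · rw [List.mem_ofFn] at ha
      obtain ⟨i, rfl⟩ := ha
      have h1 := ec_le (r i)
      have h2 := hr i
      omega)
  rw [List.length_cons, List.length_ofFn] at h
  exact h

end codes

/-- congruent points have congruent values -/
lemma eval_per {D : ℕ} (F : MvPolynomial (Fin D) ℤ) (p : ℕ) {n n' : Fin D → ℤ} (h : ∀ l, (p : ℤ) ∣ n l - n' l) :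
    ((MvPolynomial.eval n F : ℤ) : ZMod p) = ((MvPolynomial.eval n' F : ℤ) : ZMod p) := by
  have e : ∀ n : Fin D → ℤ, ((MvPolynomial.eval n F : ℤ) : ZMod p) =
      MvPolynomial.eval₂ (Int.castRingHom (ZMod p)) (fun l => ((n l : ℤ) : ZMod p)) F := by
    intro n
    have h1 := MvPolynomial.eval₂_comp_left (Int.castRingHom (ZMod p)) (RingHom.id ℤ) n F
    rw [RingHom.comp_id] at h1
    exact h1
  rw [e, e]
  congr 1
  funext l
  rw [← sub_eq_zero, ← Int.cast_sub, ZMod.intCast_zmod_eq_zero_iff_dvd]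
  exact h l

lemma traces_per {D m : ℕ} (f g : Fin m → MvPolynomial (Fin D) ℤ) (r : Fin m → ℤ) (p : ℕ) {n n' : Fin D → ℤ}
    (h : ∀ l, (p : ℤ) ∣ n l - n' l) : Traces f g r p n ↔ Traces f g r p n' := by
  unfold Traces
  apply forall_congr'
  intro i
  have h1 : GoodPrime (MvPolynomial.eval n (f i)) (MvPolynomial.eval n (g i)) p ↔
      GoodPrime (MvPolynomial.eval n' (f i)) (MvPolynomial.eval n' (g i)) p := by
    unfold GoodPrime
    rw [← ZMod.intCast_zmod_eq_zero_iff_dvd, ← ZMod.intCast_zmod_eq_zero_iff_dvd]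
    push_cast
    rw [eval_per (f i) p h, eval_per (g i) p h]
  have h2 : pointCount (MvPolynomial.eval n (f i)) (MvPolynomial.eval n (g i)) p =
      pointCount (MvPolynomial.eval n' (f i)) (MvPolynomial.eval n' (g i)) p := by
    unfold pointCount
    rw [eval_per (f i) p h, eval_per (g i) p h]
  rw [h1, h2]

lemma filter_pri (x : ℕ) (Q : ℕ → Prop) [DecidablePred (fun p => p.Prime ∧ Q p)] [DecidablePred Q] :
    (range (x + 1)).filter (fun p => p.Prime ∧ Q p) = (pri x).filter Q := by
  ext p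
  simp only [mem_filter, mem_range, mem_pri]
  constructor
  · rintro ⟨h1, h2, h3⟩
    exact ⟨⟨by omega, h2⟩, h3⟩
  · rintro ⟨⟨h1, h2⟩, h3⟩
    exact ⟨by omega, h2, h3⟩

/-- a bound for large arguments -/
lemma large_pow (C θ : ℝ) (hθ : 0 < θ) : ∃ X₁ : ℕ, ∀ x : ℕ, X₁ ≤ x → C ≤ (x : ℝ) ^ θ := by
  have h1 := ((tendsto_rpow_atTop hθ).comp tendsto_natCast_atTop_atTop).eventually_ge_atTop C
  exact Filter.eventually_atTop.1 h1

/-- **Lang–Trotter counts for families of elliptic curves with several parameters from thin sets of different kinds.** Let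
`D ≥ 0`, let `K_1, ..., K_D` be kinds of random integers (with admissible parameters), and let `0 < δ ≤ 1 / 2`. There are `W`
and `A` such that for all nonzero integers `κ_1, ..., κ_D`, all `m`, and all sufficiently large `X` the following holds for all
random integers `v_1, ..., v_D` of the kinds `K_1, ..., K_D` and of any sizes `Z_1, ..., Z_D`, independent of each other, and all integers
`c_1, ..., c_D`; we put `n = (c_1 + κ_1 v_1, ..., c_D + κ_D v_D)`. Let `f_i`, `g_i` (`i < m`) be any polynomials with integer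
coefficients in `D` variables and let `T_0, T_1, ...` be any pairwise disjoint sets of primes.

With a probability of at least `1 - ∑_l (1 + |log Z_l|) ^ A X ^ (- δ / (4 (D + 1)))` the following is true for ALL `x ≥ X` with
`x ^ W ≤ Z_1, ..., Z_D`, ALL `j ≤ x ^ θ` and ALL integers `|r_i| ≤ x ^ θ`, where `θ = δ / ((D + 1) 2 ^ (m + 3))`: with `M` the sum over
the primes `p ≤ x` in `T_j` of the proportion of the vectors `t` of `D` residues modulo `p` such that the curves
`y² = x³ + f_i(t) x + g_i(t)` have good reduction and the traces `r_i` at `p`, and `M'` the same sum over `p ≤ 2 ^ D x`, the number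
of the primes `p ≤ x` in `T_j` at which the curves `y² = x³ + f_i(n) x + g_i(n)` have good reduction and the traces `r_i` differs
from `M` by at most `(max 1 M') ^ (1 / 2) x ^ δ`. -/
theorem result (D : ℕ) (K : Fin D → Kind) (hK : ∀ l, (K l).Adm) (δ : ℝ) (hδ : 0 < δ) (hδ1 : δ ≤ 1 / 2) :
    ∃ W A : ℕ, 1 ≤ W ∧ ∀ κ : Fin D → ℤ, (∀ l, κ l ≠ 0) → ∀ m : ℕ, ∃ X₀ : ℕ, ∀ X : ℕ, X₀ ≤ X →
    ∀ (Z : Fin D → ℝ) (P : Fin D → Law), (∀ l, (K l).Has (Z l) (P l)) → ∀ (c : Fin D → ℤ)
    (f g : Fin m → MvPolynomial (Fin D) ℤ) (T : ℕ → Set ℕ), (∀ p j j', p ∈ T j → p ∈ T j' → j = j') →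
    prob P (fun v => ¬ ∀ x : ℕ, X ≤ x → (∀ l, (x : ℝ) ^ W ≤ Z l) →
      ∀ j : ℕ, (j : ℝ) ≤ (x : ℝ) ^ (δ / ((D + 1) * 2 ^ (m + 3))) →
      ∀ r : Fin m → ℤ, (∀ i, (|r i| : ℝ) ≤ (x : ℝ) ^ (δ / ((D + 1) * 2 ^ (m + 3)))) →
        |(count f g (T j) r (fun l => c l + κ l * (v l : ℤ)) x : ℝ) - model f g (T j) r x| ≤
          √(max 1 (model f g (T j) r (2 ^ D * x))) * (x : ℝ) ^ δ) ≤
      (∑ l, (1 + |Real.log (Z l)|) ^ A) * (X : ℝ) ^ (-(δ / (4 * (D + 1)))) := by
  classical
  have hD1 : (1 : ℝ) ≤ (D : ℝ) + 1 := by linarith [(Nat.cast_nonneg D : (0 : ℝ) ≤ D)]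
  obtain ⟨δ₀, hδ₀⟩ : ∃ δ₀ : ℝ, δ₀ = δ / (D + 1) := ⟨_, rfl⟩
  have hδ0 : 0 < δ₀ := by rw [hδ₀]; positivity
  have hδ2 : δ₀ ≤ 1 / 2 := by
    rw [hδ₀]
    exact (div_le_self hδ.le hD1).trans hδ1
  have h1 := fun l => fine_kind δ₀ hδ0 hδ2 (K l) (hK l)
  choose W₁ A₁ hW₁ H₁ using h1
  obtain ⟨W₀, hW₀⟩ : ∃ W₀, W₀ = 1 + ∑ l, W₁ l := ⟨_, rfl⟩
  refine ⟨2 * W₀, ∑ l, A₁ l, by omega, fun κ hκ m => ?_⟩
  choose X₃ J₃ using fun l => H₁ l (κ l) (hκ l)
  obtain ⟨X₁, hX₁⟩ := large_pow ((4 : ℝ) ^ (2 ^ (m + 1))) (δ₀ / 4) (by positivity)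
  obtain ⟨X₂, hX₂⟩ := large_pow ((4 : ℝ) ^ D) δ₀ hδ0
  obtain ⟨X₄, hX₄⟩ := large_pow 2 (δ₀ / 4) (by positivity)
  refine ⟨X₁ + X₂ + X₄ + 2 ^ D + 1 + ∑ l, X₃ l, fun X hX Z P hP c f g T hT => ?_⟩
  have h2D : 0 < 2 ^ D := by positivity
  obtain ⟨hXa, hXb, hXc, hXD, hXe, hXf⟩ : X₁ ≤ X ∧ X₂ ≤ X ∧ X₄ ≤ X ∧ 2 ^ D ≤ X ∧ 1 ≤ X ∧ ∑ l, X₃ l ≤ X := by
    refine ⟨?_, ?_, ?_, ?_, ?_, ?_⟩ <;> omega
  have hX3 : ∀ l, X₃ l ≤ X := fun l => by
    have := single_le_sum (f := X₃) (fun l _ => Nat.zero_le _) (mem_univ l)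
    omega
  have hXr : (1 : ℝ) ≤ X := by exact_mod_cast (by omega : 1 ≤ X)
  -- the system of functions
  obtain ⟨G, hG⟩ : ∃ G : ℕ → ℕ → (Fin D → ℤ) → ℝ, G = fun J p n =>
    if ∃ (j : ℕ) (r : Fin m → ℤ), code j r = J ∧ p ∈ T j ∧ Traces f g r p n then 1 else 0 := ⟨_, rfl⟩
  have hGval : ∀ (j : ℕ) (r : Fin m → ℤ) (p : ℕ) (n : Fin D → ℤ),
      G (code j r) p n = if p ∈ T j ∧ Traces f g r p n then 1 else 0 := by
    intro j r p n
    rw [hG]
    simp only
    congr 1
    rw [eq_iff_iff]
    constructor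
    · rintro ⟨j', r', h, h1, h2⟩
      obtain ⟨rfl, rfl⟩ := code_inj h
      exact ⟨h1, h2⟩
    · rintro ⟨h1, h2⟩
      exact ⟨j, r, rfl, h1, h2⟩
  have hsys : Sys1 G := by
    refine ⟨?_, ?_, ?_⟩
    · intro J p hp n n' h
      rw [hG]
      simp only
      congr 1
      rw [eq_iff_iff]
      apply exists_congr
      intro j
      apply exists_congr
      intro r
      rw [traces_per f g r p h]
    · intro J p _ n
      rw [hG]
      simp only
      split_ifs <;> norm_num
    · intro p hp n M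
      have e : ∀ J, G J p n = if ∃ (j : ℕ) (r : Fin m → ℤ), code j r = J ∧ p ∈ T j ∧ Traces f g r p n then 1 else 0 := by
        intro J
        rw [hG]
      simp only [e]
      rw [sum_boole]
      have h3 : ((range M).filter (fun J => ∃ (j : ℕ) (r : Fin m → ℤ), code j r = J ∧ p ∈ T j ∧ Traces f g r p n)).card ≤ 1 := by
        rw [card_le_one]
        intro J hJ J' hJ'
        obtain ⟨j, r, h4, h5, h6⟩ := (mem_filter.1 hJ).2
        obtain ⟨j', r', h4', h5', h6'⟩ := (mem_filter.1 hJ').2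
        have h7 := hT p j j' h5 h5'
        have h8 : r = r' := by
          funext i
          rw [← (h6 i).2, ← (h6' i).2]
        rw [← h4, ← h4', h7, h8]
      exact_mod_cast h3
  -- the one-dimensional statements
  obtain ⟨τ, hτ⟩ : ∃ τ : Fin D → ℝ, τ = fun l => (1 + |Real.log (Z l)|) ^ (∑ l, A₁ l) * (2 * (X : ℝ) ^ (-(δ₀ / 2))) := ⟨_, rfl⟩
  have hτ0 : ∀ l, 0 ≤ τ l := fun l => by
    rw [hτ]
    have := one_le_base (Z l)
    positivity
  have hfine : ∀ l, Pool.Agent.N794.CG.FineAt δ₀ X (fun x => ∀ l, (x : ℝ) ^ W₀ ≤ Z l) (τ l) (P l).Ω (P l).w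
      (fun i => c l + κ l * ((P l).v i : ℕ)) := by
    intro l s
    refine ((J₃ l X (hX3 l) (Z l) (P l) (hP l) (c l) s).mono fun n hn x hXx hx => hn x hXx ?_).le ?_
    · refine le_trans ?_ (hx l)
      apply pow_le_pow_right₀
      · exact_mod_cast (by omega : 1 ≤ x)
      · have := single_le_sum (f := W₁) (fun l _ => Nat.zero_le _) (mem_univ l)
        omega
    · rw [hτ]
      apply mul_le_mul_of_nonneg_right _ (by positivity)
      exact pow_le_pow_right₀ (one_le_base _) (single_le_sum (f := A₁) (fun l _ => Nat.zero_le _) (mem_univ l))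
  -- the exceptional set
  obtain ⟨Bad, hBad⟩ : ∃ Bad : (Fin D → ℕ) → Prop, Bad = fun v => ¬ ∀ x : ℕ, X ≤ x → (∀ l, (x : ℝ) ^ (2 * W₀) ≤ Z l) →
      ∀ j : ℕ, (j : ℝ) ≤ (x : ℝ) ^ (δ / ((D + 1) * 2 ^ (m + 3))) →
      ∀ r : Fin m → ℤ, (∀ i, (|r i| : ℝ) ≤ (x : ℝ) ^ (δ / ((D + 1) * 2 ^ (m + 3)))) →
        |(count f g (T j) r (fun l => c l + κ l * (v l : ℤ)) x : ℝ) - model f g (T j) r x| ≤
          √(max 1 (model f g (T j) r (2 ^ D * x))) * (x : ℝ) ^ δ := ⟨_, rfl⟩
  obtain ⟨E, hE⟩ : ∃ E : Finset (∀ l, (P l).ι), E = (Fintype.piFinset (fun l => (P l).Ω)).filter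
      (fun i => Bad (fun l => (P l).v (i l))) := ⟨_, rfl⟩
  have hprob : prob P Bad = ∑ i ∈ E, ∏ l, (P l).w (i l) := by
    unfold prob
    rw [hE, sum_filter]
  rw [← hBad, hprob]
  have hmean : ∀ (j : ℕ) (r : Fin m → ℤ) (p : ℕ), meanD p D (G (code j r) p) = if p ∈ T j then
      (((Fintype.piFinset fun _ : Fin D => range p).filter (fun t => Traces f g r p (fun l => (t l : ℤ)))).card : ℝ) / (p : ℝ) ^ D
      else 0 := by
    intro j r p
    rw [meanD_eq]
    simp only [hGval]
    by_cases h : p ∈ T j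
    · rw [if_pos h]
      simp only [h, true_and]
      rw [sum_boole, one_div, inv_mul_eq_div]
    · rw [if_neg h]
      simp only [h, false_and, if_false, sum_const_zero, mul_zero]
  have hmodel : ∀ (j : ℕ) (r : Fin m → ℤ) (y : ℕ), ∑ p ∈ pri y, meanD p D (G (code j r) p) = model f g (T j) r y := by
    intro j r y
    unfold model
    rw [filter_pri y (fun p => p ∈ T j), sum_filter]
    exact sum_congr rfl fun p _ => hmean j r p
  have hcount : ∀ (j : ℕ) (r : Fin m → ℤ) (n : Fin D → ℤ) (x : ℕ),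
      ∑ p ∈ pri x, G (code j r) p n = (count f g (T j) r n x : ℝ) := by
    intro j r n x
    unfold count
    rw [filter_pri x (fun p => p ∈ T j ∧ Traces f g r p n)]
    simp only [hGval]
    rw [sum_boole]
  have hmain := fine_multi δ₀ hδ0 hδ2 X (by omega) (fun x => ∀ l, (x : ℝ) ^ W₀ ≤ Z l) D (fun l => (P l).ι) (fun l => (P l).Ω)
    (fun l => (P l).w) (fun l i => c l + κ l * ((P l).v i : ℕ)) τ hτ0 (fun l => (hP l).nonneg) (fun l => (hP l).sum_le) hfine G hsys E
    (by rw [hE]; exact filter_subset _ _) (by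
      intro i hi
      rw [hE, mem_filter, hBad] at hi
      obtain ⟨_, hi⟩ := hi
      push Not at hi
      obtain ⟨x, hXx, hxZ, j, hj, r, hr, hlt⟩ := hi
      have hx1 : 1 ≤ x := by omega
      have hxr : (1 : ℝ) ≤ x := by exact_mod_cast hx1
      have hxD : 2 ^ D ≤ x := hXD.trans hXx
      obtain ⟨θ, hθ⟩ : ∃ θ : ℝ, θ = δ / ((D + 1) * 2 ^ (m + 3)) := ⟨_, rfl⟩
      rw [← hθ] at hj hr
      have hθ0 : 0 < θ := by rw [hθ]; positivity
      -- the size of the code
      have hcode : ((code j r : ℕ) : ℝ) ≤ (x : ℝ) ^ (δ₀ / 2) := by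
        obtain ⟨R, hR⟩ : ∃ R : ℕ, R = ⌊(x : ℝ) ^ θ⌋₊ := ⟨_, rfl⟩
        have hRle : (R : ℝ) ≤ (x : ℝ) ^ θ := by
          rw [hR]
          exact Nat.floor_le (by positivity)
        have hy1 : 1 ≤ (x : ℝ) ^ θ := Real.one_le_rpow hxr hθ0.le
        have h2 : j ≤ R := by
          rw [hR]
          exact Nat.le_floor hj
        have h3 : ∀ i, (r i).natAbs ≤ R := by
          intro i
          rw [hR]
          apply Nat.le_floor
          have h4 := hr i
          rw [Nat.cast_natAbs]
          push_cast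
          exact h4
        have h4 : ((code j r : ℕ) : ℝ) + 1 ≤ (2 * (R : ℝ) + 2) ^ (2 ^ (m + 1)) := by exact_mod_cast code_le h2 h3
        have h5 : (2 * (R : ℝ) + 2) ^ (2 ^ (m + 1)) ≤ (4 * (x : ℝ) ^ θ) ^ (2 ^ (m + 1)) := by
          apply pow_le_pow_left₀ (by positivity)
          linarith
        have h6 : ((x : ℝ) ^ θ) ^ (2 ^ (m + 1)) = (x : ℝ) ^ (δ₀ / 4) := by
          rw [← Real.rpow_natCast, ← Real.rpow_mul (by linarith), hθ, hδ₀]
          congr 1
          push_cast
          rw [pow_add (2 : ℝ) m 3, pow_add (2 : ℝ) m 1]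
          have : (D : ℝ) + 1 ≠ 0 := by linarith
          field_simp
          norm_num
        rw [mul_pow, h6] at h5
        have h7 : (4 : ℝ) ^ (2 ^ (m + 1)) * (x : ℝ) ^ (δ₀ / 4) ≤ (x : ℝ) ^ (δ₀ / 4) * (x : ℝ) ^ (δ₀ / 4) :=
          mul_le_mul_of_nonneg_right (hX₁ x (by omega)) (by positivity)
        have h8 : (x : ℝ) ^ (δ₀ / 4) * (x : ℝ) ^ (δ₀ / 4) = (x : ℝ) ^ (δ₀ / 2) := by
          rw [← Real.rpow_add (by linarith)]
          congr 1
          ring
        linarith
      refine ⟨x, hXx, ?_, code j r, hcode, ?_⟩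
      · intro e he l
        refine le_trans ?_ (hxZ l)
        rw [pow_mul]
        apply pow_le_pow_left₀ (by positivity)
        push_cast
        rw [sq]
        apply mul_le_mul_of_nonneg_right _ (by positivity)
        have : 2 ^ e ≤ x := (Nat.pow_le_pow_right (by norm_num) he).trans hxD
        exact_mod_cast this
      · rw [hmodel, sum_sub_distrib, hmodel, hcount]
        refine lt_of_le_of_lt ?_ hlt
        have h9 : (4 : ℝ) ^ D * (((x : ℝ) ^ δ₀) ^ D) ≤ (x : ℝ) ^ δ := by
          have e1 : ((x : ℝ) ^ δ₀) ^ D * (x : ℝ) ^ δ₀ = (x : ℝ) ^ δ := by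
            rw [← pow_succ, ← Real.rpow_natCast, ← Real.rpow_mul (by linarith), hδ₀]
            congr 1
            push_cast
            have : (D : ℝ) + 1 ≠ 0 := by linarith
            field_simp
          rw [← e1, mul_comm]
          exact mul_le_mul_of_nonneg_left (hX₂ x (by omega)) (by positivity)
        calc 4 ^ D * (√(max 1 (model f g (T j) r (2 ^ D * x))) * ((x : ℝ) ^ δ₀) ^ D) =
              √(max 1 (model f g (T j) r (2 ^ D * x))) * (4 ^ D * ((x : ℝ) ^ δ₀) ^ D) := by ring
          _ ≤ √(max 1 (model f g (T j) r (2 ^ D * x))) * (x : ℝ) ^ δ := mul_le_mul_of_nonneg_left h9 (Real.sqrt_nonneg _))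
  refine hmain.trans ?_
  rw [hτ, ← sum_mul]
  apply mul_le_mul_of_nonneg_left _ (sum_nonneg fun l _ => by
    have := one_le_base (Z l)
    positivity)
  have e1 : (X : ℝ) ^ (-(δ / (4 * (D + 1)))) = (X : ℝ) ^ (δ₀ / 4) * (X : ℝ) ^ (-(δ₀ / 2)) := by
    rw [← Real.rpow_add (by linarith), hδ₀]
    congr 1
    have : (D : ℝ) + 1 ≠ 0 := by linarith
    field_simp
    ring
  rw [e1]
  exact mul_le_mul_of_nonneg_right (hX₄ X (by omega)) (by positivity)

end Pool.Agent.Results.MP_d74fca_nt.MixedThinParameters
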