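import Pool.Agent.J4.H35.PPc
import Pool.Agent.W406.TW.LT

/-!
# Lang–Trotter counts for almost all quadratic twists by `⌊α n ^ c⌋`, uniformly in `α`

From Mathlib: `jacobiSym`: the Jacobi symbol; `Nat.Prime`: primes.

Method: the characteristic function of the integer part of `α n ^ c`, `N ≤ n < 2 N`, is small at all frequencies which are
not close to integers, uniformly in `α` (van der Corput differencing and the inequality of Kusmin and Landau,
`Pool.Agent.J4.H35.PPa`, `PPb`). The passage from the characteristic function to sums over primes of functions of residues,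
for almost all values, is from the starting files (`Pool.Agent.R459.Eq`).
-/

set_option autoImplicit false

namespace Pool.Agent.Results.MP_d74fca_nt.MovingPowerTwists

open Finset Filter Pool.Agent.R459.Eq
open Pool.Agent.W406.TW (ap ap_twist dvd_disc not_dvd_of_jac)

open Classical in
/-- Almost all the integers `D = c₀ + κ ⌊α n ^ c⌋`, `N ≤ n < 2 N`, up to a proportion of at most `τ` of the `n`, have the
property `P`. -/
def Almost (c α : ℝ) (N : ℕ) (κ c₀ : ℤ) (τ : ℝ) (P : ℤ → Prop) : Prop :=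
  (((Ico N (2 * N)).filter (fun n : ℕ => ¬ P (c₀ + κ * ⌊α * (n : ℝ) ^ c⌋))).card : ℝ) ≤ τ * N

/-- The trace of Frobenius of `y² = x³ + A x + B` at the odd prime `p` of good reduction. -/
def trace (A B : ℤ) (p : ℕ) : ℤ := -∑ x ∈ range p, jacobiSym ((x : ℤ) ^ 3 + A * x + B) p

open Classical in
/-- The number of the primes `p ≤ x` in the set `S` which do not divide `2 (4 A³ + 27 B²)` and at which the trace of Frobenius
of `y² = x³ + A x + B` is `r`. -/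
noncomputable def count (S : Set ℕ) (A B r : ℤ) (x : ℕ) : ℕ :=
  ((range (x + 1)).filter (fun p : ℕ =>
    p.Prime ∧ ¬ ((p : ℤ) ∣ 2 * (4 * A ^ 3 + 27 * B ^ 2)) ∧ p ∈ S ∧ trace A B p = r)).card

lemma trace_eq (A B : ℤ) (p : ℕ) : trace A B p = ap A B p := rfl

lemma almost_iff {c α : ℝ} {N : ℕ} {κ c₀ : ℤ} {τ : ℝ} {P : ℤ → Prop} :
    Almost c α N κ c₀ τ P ↔ Pool.Agent.J4.H35.PP.AlmostM c α N κ c₀ τ P := by
  unfold Almost Pool.Agent.J4.H35.PP.AlmostM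
  rfl

lemma almost_and {c α : ℝ} {N : ℕ} {κ c₀ : ℤ} {τ τ' : ℝ} {P Q : ℤ → Prop} (h : Almost c α N κ c₀ τ P)
    (h' : Almost c α N κ c₀ τ' Q) : Almost c α N κ c₀ (τ + τ') (fun n => P n ∧ Q n) := by
  classical
  unfold Almost at h h' ⊢
  have h1 : (Ico N (2 * N)).filter (fun n : ℕ => ¬ (P (c₀ + κ * ⌊α * (n : ℝ) ^ c⌋) ∧ Q (c₀ + κ * ⌊α * (n : ℝ) ^ c⌋))) ⊆
      (Ico N (2 * N)).filter (fun n : ℕ => ¬ P (c₀ + κ * ⌊α * (n : ℝ) ^ c⌋)) ∪
      (Ico N (2 * N)).filter (fun n : ℕ => ¬ Q (c₀ + κ * ⌊α * (n : ℝ) ^ c⌋)) := by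
    intro n hn
    rw [mem_union, mem_filter, mem_filter]
    rw [mem_filter] at hn
    by_cases hP : P (c₀ + κ * ⌊α * (n : ℝ) ^ c⌋)
    · right
      exact ⟨hn.1, fun hQ => hn.2 ⟨hP, hQ⟩⟩
    · left
      exact ⟨hn.1, hP⟩
  have h2 := (card_le_card h1).trans (card_union_le _ _)
  have h3 : (((Ico N (2 * N)).filter (fun n : ℕ => ¬ (P (c₀ + κ * ⌊α * (n : ℝ) ^ c⌋) ∧ Q (c₀ + κ * ⌊α * (n : ℝ) ^ c⌋)))).card : ℝ) ≤
      ((Ico N (2 * N)).filter (fun n : ℕ => ¬ P (c₀ + κ * ⌊α * (n : ℝ) ^ c⌋))).card +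
      ((Ico N (2 * N)).filter (fun n : ℕ => ¬ Q (c₀ + κ * ⌊α * (n : ℝ) ^ c⌋))).card := by
    exact_mod_cast h2
  refine le_trans (le_of_eq ?_) (h3.trans ?_)
  · congr!
  · rw [add_mul]
    exact add_le_add h h'

/-- the primes in `S` with trace `j` or `-j` -/
def TT (S : Set ℕ) (A B : ℤ) (j : ℕ) : Set ℕ :=
  {p | ¬ ((p : ℤ) ∣ 2 * (4 * A ^ 3 + 27 * B ^ 2)) ∧ p ∈ S ∧ 1 ≤ j ∧ (ap A B p = j ∨ ap A B p = -(j : ℤ))}

/-- the sign -/
def sgn (A B σ : ℤ) (p : ℕ) : ℤ := if 0 < ap A B p then σ else -σ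

lemma sgn_or (A B : ℤ) {σ : ℤ} (hσ : σ = 1 ∨ σ = -1) (p : ℕ) : sgn A B σ p = 1 ∨ sgn A B σ p = -1 := by
  unfold sgn
  rcases hσ with h | h <;> rw [h] <;> split_ifs <;> simp

lemma TT_disj (S : Set ℕ) (A B : ℤ) (p j j' : ℕ) (h : p ∈ TT S A B j) (h' : p ∈ TT S A B j') : j = j' := by
  obtain ⟨_, _, h1, h2⟩ := h
  obtain ⟨_, _, h3, h4⟩ := h'
  omega

open Classical in
lemma count_twist (S : Set ℕ) (A B D : ℤ) {σ : ℤ} (hσ : σ = 1 ∨ σ = -1) (j : ℕ) (hj : 1 ≤ j) (x : ℕ) :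
    count S (A * D ^ 2) (B * D ^ 3) (σ * j) x =
      ((pri x).filter (fun p => p ≠ 2 ∧ p ∈ TT S A B j ∧ jacobiSym D p = sgn A B σ p)).card := by
  have hj0 : (1 : ℤ) ≤ j := by exact_mod_cast hj
  unfold count
  congr 1
  ext p
  simp only [mem_filter, mem_range, mem_pri]
  constructor
  · rintro ⟨hpx, hpp, hnd, hS, hap⟩
    have hdisc : 2 * (4 * (A * D ^ 2) ^ 3 + 27 * (B * D ^ 3) ^ 2) =
      2 * (4 * A ^ 3 + 27 * B ^ 2) * D ^ 6 := by ring
    have hpd : ¬ (p : ℤ) ∣ 2 * (4 * A ^ 3 + 27 * B ^ 2) := by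
      intro h
      apply hnd
      rw [hdisc]
      exact Dvd.dvd.mul_right h _
    have hp2 : p ≠ 2 := by
      rintro rfl
      exact hpd (Dvd.intro _ rfl)
    rw [trace_eq, ap_twist A B D hpp hp2] at hap
    refine ⟨⟨by omega, hpp⟩, hp2, ⟨hpd, hS, hj, ?_⟩, ?_⟩
    · rcases jacobiSym.trichotomy D p with h | h | h <;> rw [h] at hap <;> rcases hσ with h1 | h1 <;> rw [h1] at hap <;> omega
    · unfold sgn
      rcases jacobiSym.trichotomy D p with h | h | h <;> rw [h] at hap ⊢ <;> rcases hσ with h1 | h1 <;> rw [h1] at hap ⊢ <;>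
        split_ifs <;> omega
  · rintro ⟨⟨hpx, hpp⟩, hp2, ⟨hpd, hS, _, hor⟩, hjac⟩
    have hne : jacobiSym D p ≠ 0 := by
      rw [hjac]
      rcases sgn_or A B hσ p with h | h <;> rw [h] <;> norm_num
    have hpD : ¬ (p : ℤ) ∣ D := not_dvd_of_jac hpp hne
    refine ⟨by omega, hpp, ?_, hS, ?_⟩
    · rw [dvd_disc A B D hpp hpD]
      exact hpd
    · rw [trace_eq, ap_twist A B D hpp hp2, hjac]
      unfold sgn
      rcases hσ with h1 | h1 <;> rw [h1] <;> rcases hor with h2 | h2 <;> rw [h2] <;> split_ifs <;> omega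

open Classical in
lemma count_two (S : Set ℕ) (A B : ℤ) {r : ℤ} (j : ℕ) (hj : 1 ≤ j) (hr : r = j ∨ r = -(j : ℤ)) (x : ℕ) :
    (((pri x).filter (fun p => p ≠ 2 ∧ p ∈ TT S A B j)).card : ℝ) = count S A B r x + count S A B (-r) x := by
  have h : ((pri x).filter (fun p => p ≠ 2 ∧ p ∈ TT S A B j)).card = count S A B r x + count S A B (-r) x := by
    unfold count
    rw [← card_union_of_disjoint]
    · congr 1
      ext p
      simp only [mem_filter, mem_union, mem_range, mem_pri]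
      constructor
      · rintro ⟨⟨hpx, hpp⟩, hp2, ⟨hpd, hS, _, hor⟩⟩
        have h3 : ap A B p = r ∨ ap A B p = -r := by omega
        rcases h3 with h3 | h3
        · left
          exact ⟨by omega, hpp, hpd, hS, h3⟩
        · right
          exact ⟨by omega, hpp, hpd, hS, h3⟩
      · rintro (⟨hpx, hpp, hpd, hS, h3⟩ | ⟨hpx, hpp, hpd, hS, h3⟩)
        · rw [trace_eq] at h3
          have hp2 : p ≠ 2 := by
            rintro rfl
            exact hpd (Dvd.intro _ rfl)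
          exact ⟨⟨by omega, hpp⟩, hp2, ⟨hpd, hS, hj, by omega⟩⟩
        · rw [trace_eq] at h3
          have hp2 : p ≠ 2 := by
            rintro rfl
            exact hpd (Dvd.intro _ rfl)
          exact ⟨⟨by omega, hpp⟩, hp2, ⟨hpd, hS, hj, by omega⟩⟩
    · rw [disjoint_left]
      intro p hp hp'
      have h1 := (mem_filter.1 hp).2.2.2.2
      have h2 := (mem_filter.1 hp').2.2.2.2
      rw [h1] at h2
      omega
  rw [h]
  push_cast
  rfl

/-- **Lang–Trotter counts for almost all quadratic twists by `⌊α n ^ c⌋`.** Let `c` be a real number which is not one of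
`0, 1, 2, ...` (it may be negative), `δ₀ > 0`, `K₀` real, and `0 < δ ≤ 1 / 2`. There are `W` and `N₀` such that for all integers
`κ ≠ 0` and all sufficiently large `X` the following holds for all `N ≥ N₀`, for ALL real `α` with
`N ^ δ₀ ≤ α N ^ c ≤ N ^ K₀`, for all integers `c₀`, ALL curves `E : y² = x³ + A x + B` and ALL sets `S` of primes.

Almost all the integers `D = c₀ + κ ⌊α n ^ c⌋`, `N ≤ n < 2 N`, up to a proportion of at most `4 X ^ (- δ / 2)`, have for ALL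
`x ≥ X` with `x ^ W ≤ α N ^ c` and ALL integers `r ≠ 0` with `|r| ≤ x ^ (δ / 2)`: the number of the primes `p ≤ x` in `S` with
trace `r` for the twist `E_D : y² = x³ + A D² x + B D³` differs from one half of the number of the primes `p ≤ x` in `S` with
trace `± r` for `E` by at most `2 (max 1 V) ^ (1 / 2) x ^ δ`, with `V` the number of the primes `p ≤ 2 x` in `S` with trace
`± r` for `E`.

For `c = -1` and `α = y`, a parameter between `N ^ (1 + δ₀)` and `N ^ (1 + K₀)`, the integers `D` are the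
quotients `⌊y / n⌋`. -/
theorem result (c : ℝ) (hc : ∀ m : ℕ, c ≠ m) (δ₀ K₀ δ : ℝ) (hδ₀ : 0 < δ₀) (hδ : 0 < δ) (hδ1 : δ ≤ 1 / 2) :
    ∃ W N₀ : ℕ, 1 ≤ W ∧ ∀ κ : ℤ, κ ≠ 0 → ∃ X₀ : ℕ, ∀ X : ℕ, X₀ ≤ X → ∀ N : ℕ, N₀ ≤ N →
      ∀ α : ℝ, 0 < α → (N : ℝ) ^ δ₀ ≤ α * (N : ℝ) ^ c → α * (N : ℝ) ^ c ≤ (N : ℝ) ^ K₀ →
      ∀ (c₀ A B : ℤ) (S : Set ℕ),
      Almost c α N κ c₀ (4 * (X : ℝ) ^ (-(δ / 2))) (fun D =>
        ∀ x : ℕ, X ≤ x → (x : ℝ) ^ W ≤ α * (N : ℝ) ^ c → ∀ r : ℤ, r ≠ 0 → (|r| : ℝ) ≤ (x : ℝ) ^ (δ / 2) →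
          |(count S (A * D ^ 2) (B * D ^ 3) r x : ℝ) - (count S A B r x + count S A B (-r) x) / 2| ≤
            2 * √(max 1 ((count S A B r (2 * x) : ℝ) + count S A B (-r) (2 * x))) * (x : ℝ) ^ δ) := by
  classical
  obtain ⟨W, N₀, hW, H⟩ := Pool.Agent.J4.H35.PP.pw_twist_count hc δ₀ K₀ hδ₀ δ hδ hδ1
  refine ⟨W, N₀, hW, fun κ hκ => ?_⟩
  obtain ⟨X₀, J⟩ := H κ hκ
  refine ⟨X₀, fun X hX N hN α hα hα1 hα2 c₀ A B S => ?_⟩
  have hA : Pool.Agent.J4.H35.PP.Adm c δ₀ K₀ N α := ⟨hα, hα1, hα2⟩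
  have h1 := J X hX N hN α hA c₀ (TT S A B) (sgn A B 1) (sgn_or A B (Or.inl rfl)) (TT_disj S A B)
  have h2 := J X hX N hN α hA c₀ (TT S A B) (sgn A B (-1)) (sgn_or A B (Or.inr rfl)) (TT_disj S A B)
  have h8 : (4 : ℝ) * (X : ℝ) ^ (-(δ / 2)) = 2 * (X : ℝ) ^ (-(δ / 2)) + 2 * (X : ℝ) ^ (-(δ / 2)) := by ring
  rw [h8]
  have h9 := almost_and (almost_iff.2 h1) (almost_iff.2 h2)
  rw [almost_iff] at h9 ⊢
  refine Pool.Agent.J4.H35.PP.AlmostM.mono h9 ?_
  rintro D ⟨hn, hn'⟩ x hXx hxW r hr0 hrx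
  have hr : ∃ j : ℕ, 1 ≤ j ∧ (r = 1 * j ∨ r = -1 * j) ∧ (j : ℝ) = |(r : ℝ)| := by
    refine ⟨r.natAbs, by omega, ?_, ?_⟩
    · rcases Int.natAbs_eq r with h | h
      · left
        omega
      · right
        omega
    · rw [← Int.cast_abs, Int.abs_eq_natAbs]
      rfl
  obtain ⟨j, hj1, hj, hj2⟩ := hr
  have h3 : r = j ∨ r = -(j : ℤ) := by omega
  have e1 := count_two S A B j hj1 h3 x
  have e2 := count_two S A B j hj1 h3 (2 * x)
  have e3 : ((count S A B r x : ℝ) + count S A B (-r) x) / 2 =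
      1 / 2 * ((pri x).filter (fun p => p ≠ 2 ∧ p ∈ TT S A B j)).card := by
    rw [e1]
    ring
  rw [e3, ← e2]
  rcases hj with hj | hj
  · rw [hj, count_twist S A B D (Or.inl rfl) j hj1 x]
    exact hn x hXx hxW j (by rw [hj2]; exact hrx)
  · rw [hj, count_twist S A B D (Or.inr rfl) j hj1 x]
    exact hn' x hXx hxW j (by rw [hj2]; exact hrx)

end Pool.Agent.Results.MP_d74fca_nt.MovingPowerTwists
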