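import Pool.Agent.J4.H25.LT.V5
import Pool.Agent.W263.BSD.Defs

/-!
# Lang–Trotter counts for almost all members of families parametrised by the sums of the elements of two arbitrary sets

From Mathlib: `Finset`, `Nat.Prime`, `Real.log`, `√`; `Polynomial (Polynomial ℤ)`: the polynomials in two variables with
integer coefficients, `(P.eval (C n)).eval a` is the value at the first variable `a` and the second variable `n`.

Method: the sum of the absolute values of the characteristic function of the sums `b + c` over all the reduced fractions with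
denominators up to `x ^ 2` is at most `6 (N + x ^ 4) / √(|B| |C|)` (Cauchy's inequality and the large sieve for both sets). This
bounds the second moment of sums over primes `p ≤ x` of centered functions of residues modulo `p` by the diagonal contribution
and a constant multiple of this quantity, for ARBITRARY sets. Dyadic chaining gives all `x` at once.
-/

set_option autoImplicit false

namespace Pool.Agent.Results.MP_d74fca_nt.SumsetFamilies

open Finset hiding dens
open Pool.Agent.J4.H25.LT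
open Pool.Agent.W263.BSD (GoodPrime pointCount)

/-- `p` is a prime of good reduction of the equation `y² = x³ + a x + n`, that is a prime which does not divide
`2 (- 4 a³ - 27 n²)`, and its trace of Frobenius `a_p = p - N_p` is `r`. -/
def Trace (r : ℤ) (p : ℕ) (a n : ℤ) : Prop := GoodPrime a n p ∧ (p : ℤ) - pointCount a n p = r

open Classical in
/-- The number of the primes `p ≤ x` of good reduction of `E : y² = x³ + a x + n` with `a_p(E) = r`. -/
noncomputable def langTrotter (a n r : ℤ) (x : ℕ) : ℕ := ((range (x + 1)).filter (fun p => Trace r p a n)).card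

/-- `F` preserves congruences, as all the polynomials in two variables with integer coefficients do. -/
def Cong (F : ℤ → ℤ → ℤ) : Prop := ∀ m s s' t t' : ℤ, m ∣ s - s' → m ∣ t - t' → m ∣ F s t - F s' t'

open Classical in
/-- For the family `E_{s, t} : y² = x³ + F(s, t) x + G(s, t)`: the sum over the primes `p ≤ x` of the proportion of the residues
`ν` modulo `p` for which `p` is a prime of good reduction of `E_{s, ν}` with trace `r`. -/
noncomputable def model (F G : ℤ → ℤ → ℤ) (s r : ℤ) (x : ℕ) : ℝ :=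
  ∑ p ∈ (range (x + 1)).filter Nat.Prime, (((range p).filter (fun ν : ℕ => Trace r p (F s ν) (G s ν))).card : ℝ) / p

open Classical in
/-- The sum over the primes `p ≤ x` of the proportion of the pairs `(α, ν)` of residues modulo `p` for which `p` is a prime of
good reduction of `E_{α, ν}` with trace `r`. -/
noncomputable def modelPairs (F G : ℤ → ℤ → ℤ) (r : ℤ) (x : ℕ) : ℝ :=
  ∑ p ∈ (range (x + 1)).filter Nat.Prime,
    (((range p ×ˢ range p).filter (fun z : ℕ × ℕ => Trace r p (F z.1 z.2) (G z.1 z.2))).card : ℝ) / (p : ℝ) ^ 2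

/-- `B` is a nonempty set of integers in an interval `(u, u + N]`. -/
def InInterval (N : ℕ) (B : Finset ℤ) : Prop := B.Nonempty ∧ ∃ u : ℤ, ∀ b ∈ B, u < b ∧ b ≤ u + N

open Classical in
/-- Almost all the pairs `(b, c)` of `B × C`, up to a proportion of at most `τ`, are such that `b + c` has the property `P`. -/
def Almost (B C : Finset ℤ) (τ : ℝ) (P : ℤ → Prop) : Prop :=
  (((B ×ˢ C).filter (fun z : ℤ × ℤ => ¬ P (z.1 + z.2))).card : ℝ) ≤ τ * (B.card * C.card)

/-- The quantity `(N + x ^ 4) / √(|B| |C|)`. For `x ^ 4 ≤ N` this is at most `2 T`, if `|B| |C| ≥ (N / T) ^ 2`. -/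
noncomputable def sparsity (N : ℕ) (B C : Finset ℤ) (x : ℕ) : ℝ := (N + (x : ℝ) ^ 4) / √((B.card : ℝ) * C.card)

/-- **The Lang–Trotter counts of the sums of two sets.** For all families `E_{s, t} : y² = x³ + F(s, t) x + G(s, t)`:

For EVERY integer `s`, almost all sums `t = b + c` of the elements of `B` and `C`, up to a proportion of at most `τ`, are such
that for ALL `x ≥ X` and ALL integers `|r| ≤ R x` the number of the primes `p ≤ x` of good reduction of `E_{s, t}` with the
trace `r` differs from `S = model F G s r x` by at most `√(max (sparsity x) S') H x`, where `S'` is the same sum up to `2 x`.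

Almost all sums `s = b + c`, up to a proportion of at most `τ`, are such that for ALL `x ≥ X` and ALL integers `|r| ≤ R x` the sum
`S = model F G s r x` differs from `M = modelPairs F G r x` by at most `√(max (sparsity x) M') H x`, where `M'` is the same sum
up to `2 x`. -/
def SumLaw (N : ℕ) (B C : Finset ℤ) (X : ℕ) (R H : ℕ → ℝ) (τ : ℝ) : Prop :=
  ∀ F G : ℤ → ℤ → ℤ, Cong F → Cong G →
    (∀ s : ℤ, Almost B C τ (fun t => ∀ x : ℕ, X ≤ x → ∀ r : ℤ, (|r| : ℝ) ≤ R x →
      |(langTrotter (F s t) (G s t) r x : ℝ) - model F G s r x| ≤ √(max (sparsity N B C x) (model F G s r (2 * x))) * H x)) ∧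
    Almost B C τ (fun s => ∀ x : ℕ, X ≤ x → ∀ r : ℤ, (|r| : ℝ) ≤ R x →
      |model F G s r x - modelPairs F G r x| ≤ √(max (sparsity N B C x) (modelPairs F G r (2 * x))) * H x)

lemma trace_per (F G : ℤ → ℤ → ℤ) (hF : Cong F) (hG : Cong G) (r : ℤ) (p : ℕ) (a a' n n' : ℤ) (h : (p : ℤ) ∣ a - a')
    (h' : (p : ℤ) ∣ n - n') : Trace r p (F a n) (G a n) ↔ Trace r p (F a' n') (G a' n') := by
  have e1 : ((F a n : ℤ) : ZMod p) = ((F a' n' : ℤ) : ZMod p) := by
    rw [← sub_eq_zero, ← Int.cast_sub, ZMod.intCast_zmod_eq_zero_iff_dvd]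
    exact hF p a a' n n' h h'
  have e2 : ((G a n : ℤ) : ZMod p) = ((G a' n' : ℤ) : ZMod p) := by
    rw [← sub_eq_zero, ← Int.cast_sub, ZMod.intCast_zmod_eq_zero_iff_dvd]
    exact hG p a a' n n' h h'
  have h1 : GoodPrime (F a n) (G a n) p ↔ GoodPrime (F a' n') (G a' n') p := by
    unfold GoodPrime
    rw [← ZMod.intCast_zmod_eq_zero_iff_dvd, ← ZMod.intCast_zmod_eq_zero_iff_dvd]
    push_cast
    rw [e1, e2]
  have h2 : pointCount (F a n) (G a n) p = pointCount (F a' n') (G a' n') p := by
    unfold pointCount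
    rw [e1, e2]
  unfold Trace
  rw [h1, h2]

/-- the property of `J4.H25.LT` -/
def Rel (F G : ℤ → ℤ → ℤ) (r : ℤ) : ℕ → ℤ → ℤ → Prop := fun p a n => Trace r p (F a n) (G a n)

lemma pri_eq (x : ℕ) [DecidablePred Nat.Prime] : (range (x + 1)).filter Nat.Prime = pri x := by
  unfold pri
  congr!

lemma langTrotter_eq (F G : ℤ → ℤ → ℤ) (s t r : ℤ) (x : ℕ) :
    langTrotter (F s t) (G s t) r x = cntR (Rel F G r) s t x := by
  classical
  unfold langTrotter cntR Rel
  congr 1
  ext p
  simp only [mem_filter, mem_range, mem_pri]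
  constructor
  · rintro ⟨h1, h2⟩
    exact ⟨⟨by omega, h2.1.1⟩, h2⟩
  · rintro ⟨h1, h2⟩
    exact ⟨by omega, h2⟩

lemma model_eq (F G : ℤ → ℤ → ℤ) (s r : ℤ) (x : ℕ) : model F G s r x = ∑ p ∈ pri x, dens (Rel F G r) s p := by
  classical
  unfold model dens
  rw [pri_eq]
  rfl

lemma modelPairs_eq (F G : ℤ → ℤ → ℤ) (r : ℤ) (x : ℕ) : modelPairs F G r x = ∑ p ∈ pri x, dens2 (Rel F G r) p := by
  classical
  unfold modelPairs dens2
  rw [pri_eq]
  rfl

lemma almost_of {B C : Finset ℤ} (hB : B.Nonempty) (hC : C.Nonempty) {τ : ℝ} {P Q : ℤ → Prop}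
    (h : AlW (B ×ˢ C) (fun _ => 1 / ((B.card : ℝ) * C.card)) (fun z => z.1 + z.2) τ P) (hPQ : ∀ n, P n → Q n) :
    Almost B C τ Q := by
  classical
  have hb0 : (0 : ℝ) < B.card := by exact_mod_cast hB.card_pos
  have hc0 : (0 : ℝ) < C.card := by exact_mod_cast hC.card_pos
  have h1 := h ((B ×ˢ C).filter (fun z : ℤ × ℤ => ¬ Q (z.1 + z.2))) (filter_subset _ _) (by
    intro z hz hP
    exact (mem_filter.1 hz).2 (hPQ _ hP))
  rw [sum_const, nsmul_eq_mul, mul_one_div, div_le_iff₀ (mul_pos hb0 hc0)] at h1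
  unfold Almost
  convert h1

/-- from the systems to the counts -/
lemma law_of (N : ℕ) (B C : Finset ℤ) (hB : B.Nonempty) (hC : C.Nonempty) (X : ℕ) (R H : ℕ → ℝ) (hH : ∀ x, X ≤ x → 0 ≤ H x)
    (τ : ℝ) (hW : Works (B ×ˢ C) (fun _ => 1 / ((B.card : ℝ) * C.card)) (fun z => z.1 + z.2) (Bf N B C) X R H τ) :
    SumLaw N B C X R H (τ + τ) := by
  intro F G hF hG
  obtain ⟨h1, h2⟩ := two_count _ _ _ _ X R H τ hW hH (fun j : ℕ => Rel F G (1 * j))
    (fun j p _ a a' n n' h h' => trace_per F G hF hG _ p a a' n n' h h')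
  obtain ⟨h3, h4⟩ := two_count _ _ _ _ X R H τ hW hH (fun j : ℕ => Rel F G (-1 * j))
    (fun j p _ a a' n n' h h' => trace_per F G hF hG _ p a a' n n' h h')
  have hr : ∀ r : ℤ, ∃ j : ℕ, (r = 1 * j ∨ r = -1 * j) ∧ (j : ℝ) = |(r : ℝ)| := by
    intro r
    refine ⟨r.natAbs, ?_, ?_⟩
    · rcases Int.natAbs_eq r with h | h
      · left
        omega
      · right
        omega
    · rw [← Int.cast_abs, Int.abs_eq_natAbs]
      rfl
  constructor
  · intro s
    refine almost_of hB hC ((h1 s).and (h3 s)) ?_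
    rintro t ⟨ht, ht'⟩ x hXx r hrx
    rw [langTrotter_eq, model_eq, model_eq]
    obtain ⟨j, hj | hj, hj2⟩ := hr r
    · rw [hj]
      exact ht x hXx j (by rw [hj2]; exact hrx)
    · rw [hj]
      exact ht' x hXx j (by rw [hj2]; exact hrx)
  · refine almost_of hB hC (h2.and h4) ?_
    rintro s ⟨ht, ht'⟩ x hXx r hrx
    rw [model_eq, modelPairs_eq, modelPairs_eq]
    obtain ⟨j, hj | hj, hj2⟩ := hr r
    · rw [hj]
      exact ht x hXx j (by rw [hj2]; exact hrx)
    · rw [hj]
      exact ht' x hXx j (by rw [hj2]; exact hrx)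

lemma cong_poly (P : Polynomial (Polynomial ℤ)) : Cong (fun s t => (P.eval (Polynomial.C t)).eval s) := by
  intro m s s' t t' h h'
  have h1 : Polynomial.C t - Polynomial.C t' ∣ P.eval (Polynomial.C t) - P.eval (Polynomial.C t') :=
    Polynomial.sub_dvd_eval_sub _ _ _
  obtain ⟨Q, hQ⟩ := h1
  have h2 : m ∣ (P.eval (Polynomial.C t)).eval s - (P.eval (Polynomial.C t')).eval s := by
    rw [← Polynomial.eval_sub, hQ, Polynomial.eval_mul, ← Polynomial.C_sub, Polynomial.eval_C]
    exact Dvd.dvd.mul_right h' _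
  have h3 : m ∣ (P.eval (Polynomial.C t')).eval s - (P.eval (Polynomial.C t')).eval s' :=
    h.trans (Polynomial.sub_dvd_eval_sub _ _ _)
  have h4 := dvd_add h2 h3
  simpa using h4

/-- Let `B` and `C` be ARBITRARY nonempty sets of integers, each in an interval of length `N`.

**(1)** For all `0 < δ ≤ 1 / 2`, all large `X` and all `N`, `B`, `C` the law `SumLaw` holds with the exceptional proportion
`2 X ^ (- δ / 2)`, for all `x ≥ X` and all traces `|r| ≤ x ^ (δ / 2)`, with the error
`√(max (sparsity x) (model (2 x))) x ^ δ`.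

**(2)** For all `K`, all large `X` and all `N`, `B`, `C` the law `SumLaw` holds with the exceptional proportion
`1 / (log X) ^ K`, for all `x ≥ X` and all traces `|r| ≤ (log x) ^ K`, with the error
`√(max (sparsity x) (model (2 x))) (log x) ^ (K + 2)`.

**(3)** This applies to all the polynomials `F`, `G` in two variables with integer coefficients: for example to
`y² = x³ + s x + t`, to the one-parameter families `y² = x³ + f(t) x + g(t)`, and to the quadratic twists
`y² = x³ + a t² x + b t³` of a fixed curve. -/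
theorem result :
    (∀ δ : ℝ, 0 < δ → δ ≤ 1 / 2 → ∃ X₀ : ℕ, ∀ X : ℕ, X₀ ≤ X → ∀ (N : ℕ) (B C : Finset ℤ), InInterval N B → InInterval N C →
      SumLaw N B C X (fun x => (x : ℝ) ^ (δ / 2)) (fun x => (x : ℝ) ^ δ) (2 * (X : ℝ) ^ (-(δ / 2)))) ∧
    (∀ K : ℕ, ∃ X₀ : ℕ, ∀ X : ℕ, X₀ ≤ X → ∀ (N : ℕ) (B C : Finset ℤ), InInterval N B → InInterval N C →
      SumLaw N B C X (fun x => (Real.log x) ^ K) (fun x => (Real.log x) ^ (K + 2)) (1 / (Real.log X) ^ K)) ∧
    (∀ P : Polynomial (Polynomial ℤ), Cong (fun s t => (P.eval (Polynomial.C t)).eval s)) := by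
  refine ⟨fun δ hδ hδ1 => ?_, fun K => ?_, cong_poly⟩
  · obtain ⟨X₀, H⟩ := fineP δ hδ hδ1 36 (by norm_num)
    refine ⟨X₀, fun X hX N B C hB hC => ?_⟩
    obtain ⟨hB1, u, hu⟩ := hB
    obtain ⟨hC1, u', hu'⟩ := hC
    have h1 := law_of N B C hB1 hC1 X (fun x => (x : ℝ) ^ (δ / 2)) (fun x => (x : ℝ) ^ δ) (fun x _ => by positivity)
      ((X : ℝ) ^ (-(δ / 2))) (by
        intro g hg E hE hbad
        exact H X hX (ℤ × ℤ) (B ×ˢ C) (fun _ => 1 / ((B.card : ℝ) * C.card)) (fun _ _ => by positivity) (fun z => z.1 + z.2)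
          (Bf N B C) (sumset_pos N B C hB1 hC1 u hu) (fun x L h => sumset_mono N B C x L h)
          (sumset_VarB N B C hB1 hC1 u u' hu hu') g hg E hE hbad)
    rw [← two_mul] at h1
    exact h1
  · obtain ⟨X₀, H⟩ := fineL K 36 (by norm_num)
    refine ⟨X₀, fun X hX N B C hB hC => ?_⟩
    obtain ⟨hB1, u, hu⟩ := hB
    obtain ⟨hC1, u', hu'⟩ := hC
    have h1 := law_of N B C hB1 hC1 X (fun x => (Real.log x) ^ K) (fun x => (Real.log x) ^ (K + 2))
      (fun x _ => pow_nonneg (Real.log_natCast_nonneg x) _) (1 / (2 * (Real.log X) ^ K)) (by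
        intro g hg E hE hbad
        exact H X hX (ℤ × ℤ) (B ×ˢ C) (fun _ => 1 / ((B.card : ℝ) * C.card)) (fun _ _ => by positivity) (fun z => z.1 + z.2)
          (Bf N B C) (sumset_pos N B C hB1 hC1 u hu) (fun x L h => sumset_mono N B C x L h)
          (sumset_VarB N B C hB1 hC1 u u' hu hu') g hg E hE hbad)
    have e : 1 / (2 * (Real.log X) ^ K) + 1 / (2 * (Real.log X) ^ K) = 1 / (Real.log X) ^ K := by
      rw [← one_div_mul_one_div]
      ring
    rw [e] at h1
    exact h1

end Pool.Agent.Results.MP_d74fca_nt.SumsetFamilies
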